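import Pool.Agent.W292.NR.Stm

/-!
Relabelling of rows and variables.
-/

set_option autoImplicit false
set_option maxHeartbeats 400000

namespace Pool.Agent.W978.NR

open Pool.Agent.W292.NR

variable {ι : Type} [Fintype ι] {n : ℕ}

/-- the relabelled program -/
def tr (e : ι ≃ Fin n) (P : LP ι ι) : LP (Fin n) (Fin n) :=
  ⟨fun i j => P.A (e.symm i) (e.symm j), fun i => P.b (e.symm i), fun j => P.c (e.symm j)⟩

lemma value_eq (e : ι ≃ Fin n) (P : LP ι ι) (x : Fin n → ℚ) :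
    (tr e P).value x = P.value (x ∘ e) := by
  unfold LP.value tr
  rw [← Equiv.sum_comp e]
  simp

lemma slack_eq (e : ι ≃ Fin n) (P : LP ι ι) (x : Fin n → ℚ) (t : ι ⊕ ι) :
    (tr e P).slack x (Sum.map e e t) = P.slack (x ∘ e) t := by
  cases t with
  | inl i =>
    simp only [Sum.map_inl, LP.slack, tr]
    rw [← Equiv.sum_comp e]
    simp
  | inr j => simp [LP.slack, tr]

lemma rate_eq (e : ι ≃ Fin n) (P : LP ι ι) (x : Fin n → ℚ) (t : ι ⊕ ι) :
    (tr e P).rate x (Sum.map e e t) = P.rate (x ∘ e) t := by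
  cases t with
  | inl i =>
    simp only [Sum.map_inl, LP.rate, tr]
    rw [← Equiv.sum_comp e]
    simp
  | inr j => simp [LP.rate, tr]

lemma map_surj (e : ι ≃ Fin n) (t : Fin n ⊕ Fin n) : ∃ s : ι ⊕ ι, t = Sum.map e e s :=
  ⟨Sum.map e.symm e.symm t, by cases t <;> simp⟩

lemma map_inj (e : ι ≃ Fin n) {s t : ι ⊕ ι} (h : Sum.map e e s = Sum.map e e t) : s = t :=
  (Equiv.sumCongr e e).injective h

lemma feas_iff (e : ι ≃ Fin n) (P : LP ι ι) (x : Fin n → ℚ) :
    (tr e P).Feasible x ↔ P.Feasible (x ∘ e) := by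
  constructor
  · intro h t
    rw [← slack_eq]
    exact h _
  · intro h t
    obtain ⟨s, rfl⟩ := map_surj e t
    rw [slack_eq]
    exact h s

lemma edge_iff (e : ι ≃ Fin n) (P : LP ι ι) (x z : Fin n → ℚ) (t : ι ⊕ ι) :
    (tr e P).EdgeDir x (Sum.map e e t) z ↔ P.EdgeDir (x ∘ e) t (z ∘ e) := by
  unfold LP.EdgeDir
  rw [slack_eq, rate_eq]
  refine and_congr_right fun _ => and_congr_right fun _ => ?_
  constructor
  · intro h s hs hst
    rw [← rate_eq]
    refine h _ (by rw [slack_eq]; exact hs) fun h1 => hst (map_inj e h1)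
  · intro h s hs hst
    obtain ⟨s, rfl⟩ := map_surj e s
    rw [slack_eq] at hs
    rw [rate_eq]
    exact h s hs fun h1 => hst (by rw [h1])

lemma comp_symm (e : ι ≃ Fin n) (z : ι → ℚ) : (z ∘ e.symm) ∘ e = z := by
  funext i; simp

lemma symm_comp (e : ι ≃ Fin n) (z : Fin n → ℚ) : (z ∘ e) ∘ e.symm = z := by
  funext i; simp

lemma vertex_of (e : ι ≃ Fin n) (P : LP ι ι) (x : Fin n → ℚ) (h : P.Vertex (x ∘ e)) :
    (tr e P).Vertex x := by
  obtain ⟨h1, h2, h3⟩ := h
  refine ⟨(feas_iff e P x).2 h1, ?_, ?_⟩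
  · rw [← Fintype.card_congr e, ← h2]
    symm
    apply Fintype.card_congr
    refine (Equiv.sumCongr e e).subtypeEquiv fun t => ?_
    show P.slack (x ∘ e) t = 0 ↔ (tr e P).slack x (Sum.map e e t) = 0
    rw [slack_eq]
  · intro t ht
    obtain ⟨s, rfl⟩ := map_surj e t
    rw [slack_eq] at ht
    obtain ⟨z, hz, hu⟩ := h3 s ht
    refine ⟨z ∘ e.symm, ?_, fun y hy => ?_⟩
    · show (tr e P).EdgeDir x (Sum.map e e s) (z ∘ e.symm)
      rw [edge_iff, comp_symm]
      exact hz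
    · have hy' := (edge_iff e P x y s).1 hy
      rw [← hu _ hy', symm_comp]

lemma offers_iff (e : ι ≃ Fin n) (P : LP ι ι) (name : ι ⊕ ι → ℕ) (x : Fin n → ℚ)
    (S : Finset (ℕ × ℚ)) :
    (tr e P).Offers (fun t => name (Sum.map e.symm e.symm t)) x S ↔ P.Offers name (x ∘ e) S := by
  unfold LP.Offers
  refine forall_congr' fun p => iff_congr Iff.rfl (and_congr_right fun _ => ?_)
  constructor
  · rintro ⟨t, z, h1, h2, h3⟩
    obtain ⟨s, rfl⟩ := map_surj e t
    refine ⟨s, z ∘ e, (edge_iff e P x z s).1 h1, ?_, ?_⟩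
    · rw [← h2]
      congr 1
      cases s <;> simp
    · rw [← value_eq]; exact h3
  · rintro ⟨t, z, h1, h2, h3⟩
    refine ⟨Sum.map e e t, z ∘ e.symm, ?_, ?_, ?_⟩
    · rw [edge_iff, comp_symm]; exact h1
    · rw [← h2]
      congr 1
      cases t <;> simp
    · rw [value_eq, comp_symm]; exact h3

lemma pivot_iff (e : ι ≃ Fin n) (P : LP ι ι) (name : ι ⊕ ι → ℕ) (r : Finset (ℕ × ℚ) → ℕ)
    (x y : Fin n → ℚ) :
    (tr e P).Pivot (fun t => name (Sum.map e.symm e.symm t)) r x y ↔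
      P.Pivot name r (x ∘ e) (y ∘ e) := by
  unfold LP.Pivot
  constructor
  · rintro ⟨S, t, z, s, h1, h2, h3, h4, h5, h6, h7, h8, h9⟩
    obtain ⟨t, rfl⟩ := map_surj e t
    refine ⟨S, t, z ∘ e, s, (offers_iff e P name x S).1 h1, h2, ?_, (edge_iff e P x z t).1 h4, ?_,
      h6, fun j => h7 (e j), (feas_iff e P y).1 h8, fun s' hs' hf => h9 s' hs' ?_⟩
    · rw [← h3]
      congr 1
      cases t <;> simp
    · rw [← value_eq]; exact h5
    · rw [feas_iff]; exact hf
  · rintro ⟨S, t, z, s, h1, h2, h3, h4, h5, h6, h7, h8, h9⟩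
    refine ⟨S, Sum.map e e t, z ∘ e.symm, s, (offers_iff e P name x S).2 h1, h2, ?_, ?_, ?_,
      h6, fun j => ?_, (feas_iff e P y).2 h8, fun s' hs' hf => h9 s' hs' ?_⟩
    · rw [← h3]
      show name _ = name _
      congr 1
      cases t <;> simp
    · rw [edge_iff, comp_symm]; exact h4
    · rw [value_eq, comp_symm]; exact h5
    · have := h7 (e.symm j)
      simpa using this
    · rw [feas_iff] at hf
      have e1 : (fun j => x j + s' * (z ∘ e.symm) j) ∘ e = fun j => (x ∘ e) j + s' * z j := by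
        funext j; simp
      rw [e1] at hf
      exact hf

/-- relabelling -/
theorem X : Pool.Agent.W292.NR.S_TRANS := by
  intro ι _ n m T e r P name h l x hl h0 hp
  have h1 := h l (fun t => x t ∘ e) hl (by
    show x 0 ∘ e = 0
    rw [h0]; rfl) (fun t ht => by
    obtain ⟨q, hq⟩ := hp t ht
    exact ⟨q, (pivot_iff e P name (r q) (x t) (x (t + 1))).1 hq⟩)
  refine ⟨vertex_of e P (x l) h1.1, fun q => ?_⟩
  obtain ⟨y, hy, hv⟩ := h1.2 q
  refine ⟨y ∘ e.symm, ?_, ?_⟩
  · refine (pivot_iff e P name (r q) (x l) (y ∘ e.symm)).2 ?_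
    rw [comp_symm]; exact hy
  · show (tr e P).value (x l) < (tr e P).value (y ∘ e.symm)
    rw [value_eq, value_eq, comp_symm]
    exact hv

end Pool.Agent.W978.NR
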